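import Pool.Agent.Q204.LL.Valid
import Pool.Agent.Q204.LL.Evid
import Pool.Agent.Q204.WD.Comp

set_option autoImplicit false

/-!
# `List ⋆ List` is strictly below unique choice on Baire space

Suppose `UC ≤ f₀ ∘ g₀` with `f₀, g₀ ≤ List`.  Then for instances `p` of `UC` with solution `x` the
statement `x 0 = 1` is equivalent to `p ∈ S` for a `G_δσ` set `S`: it holds iff some finite part of an
enumeration of the second closed set is consistent and yields the value `1`, and by a Baire category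
argument this is decided by finitely many exact points of the first closed set.  But there is a
closed set with exactly one element `x` which has a name `p` with `x 0 = 1` iff `p ∉ S`: the element
`x` is the evidence for the truth value of `p ∈ S`.
-/

namespace Pool.Agent.Results.MP_b67dab_lc.ListListBelowUC

open Q204.WD Q204.LL

theorem main (f₀ g₀ : Problem) (hf : WRed f₀ ListC) (hg : WRed g₀ ListC) :
    ¬ WRed UC (comp f₀ g₀) := by
  rintro ⟨k, h, ⟨-, hk⟩, ⟨-, hh⟩, hred⟩
  obtain ⟨k1, h1, ⟨-, hk1⟩, ⟨-, hh1⟩, hred1⟩ := hg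
  obtain ⟨k2, h2, ⟨-, hk2⟩, ⟨-, hh2⟩, hred2⟩ := hf
  let K1 : List ℕ → List ℕ := fun a => k1 (k a)
  let Y : List ℕ → List ℕ → List ℕ := fun a b => h1 (joinL (k a) b)
  let K2 : List ℕ → List ℕ → List ℕ := fun a b => k2 (Y a b)
  let G : List ℕ → List ℕ → List ℕ → List ℕ := fun a b c => h (joinL a (h2 (joinL (Y a b) c)))
  have hY : Mono2 Y := fun a a' b b' ha hb => hh1 _ _ (joinL_prefix (hk _ _ ha) hb)
  have hH : ∀ p x, closedOf p = {x} → Hyp K1 K2 G p x := by
    intro p x hpx
    have hdom : p ∈ dom UC := ⟨x, hpx⟩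
    obtain ⟨P, hP, hPdom, hsol⟩ := hred p hdom
    obtain ⟨r, hPg, hall, -⟩ := hPdom
    obtain ⟨P1, hP1, hP1dom, hsol1⟩ := hred1 P hPg
    have hcP : Conv (fun n => k (pre p n)) P := hP.conv hk
    have hcP1 : Conv (fun n => k1 (k (pre p n))) P1 := hcP.comp hk1 hP1
    have hAp : Ap K1 p = cantorOf P1 := by
      ext z
      exact (mem_cantorOf_iff hcP1 z).symm
    have hcountR : ∀ L : ℕ → ℕ, (Rg L).Countable := by
      intro L
      apply (Set.countable_range (fun i => fun k => L (Nat.pair i (k + 1)))).mono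
      rintro z ⟨i, -, rfl⟩
      exact ⟨i, rfl⟩
    refine ⟨fun a a' ha => hk1 _ _ (hk _ _ ha), fun a a' b b' ha hb => hk2 _ _ (hY _ _ _ _ ha hb),
      fun a a' b b' c c' ha hb hc => hh _ _ (joinL_prefix ha
        (hh2 _ _ (joinL_prefix (hY _ _ _ _ ha hb) hc))), ?_, ?_⟩
    · obtain ⟨L, -, hLR⟩ := hP1dom
      rw [hAp, ← hLR]
      exact hcountR L
    · intro L hLb hLR
      have hLsol : L ∈ ListC P1 := ⟨hLb, by rw [← hAp]; exact hLR⟩
      obtain ⟨y, hy, hyg⟩ := hsol1 L hLsol
      have hcy : Conv (fun n => Y (pre p n) (pre L n)) y :=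
        (hcP.join (conv_pre L)).comp hh1 hy
      obtain ⟨P2, hP2, hP2dom, hsol2⟩ := hred2 y (hall y hyg)
      refine ⟨P2, hcy.comp hk2 hP2, ?_, ?_⟩
      · obtain ⟨L2, -, hLR2⟩ := hP2dom
        rw [← hLR2]
        exact hcountR L2
      · intro L2 hL2b hL2R
        obtain ⟨s, hs, hsf⟩ := hsol2 L2 ⟨hL2b, hL2R⟩
        have hcs : Conv (fun n => h2 (joinL (Y (pre p n) (pre L n)) (pre L2 n))) s :=
          (hcy.join (conv_pre L2)).comp hh2 hs
        obtain ⟨x', hx', hx'U⟩ := hsol s ⟨hPg, hall, y, hyg, hsf⟩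
        have hxx : x' = x := by
          have h3 : closedOf p = {x'} := hx'U
          rw [hpx] at h3
          exact (Set.singleton_eq_singleton_iff.1 h3).symm
        rw [← hxx]
        exact ((conv_pre p).join hcs).comp hh hx'
  -- the G_δσ set
  obtain ⟨e, he⟩ : ∃ e : ℕ → List ℕ × ℕ × ℕ, Function.Surjective e := exists_surjective_nat _
  have hK1 : Mono K1 := fun a a' ha => hk1 _ _ (hk _ _ ha)
  obtain ⟨p, x, hpx, hiff⟩ := exists_self
    (fun a s => ON K1 K2 G (e a).1 (e a).2.1 (e a).2.2 s)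
    (fun a s => isOpen_ON hK1 _ _ _ _)
  have H := hH p x hpx
  have hiff2 : x 0 = 1 ↔ p ∈ ⋃ a, ⋂ s, ON K1 K2 G (e a).1 (e a).2.1 (e a).2.2 s := by
    rw [Set.mem_iUnion]
    constructor
    · intro hx
      obtain ⟨c, n0, l, hs⟩ := complete H hx
      obtain ⟨a, ha⟩ := he (c, n0, l)
      refine ⟨a, ?_⟩
      rw [ha, ← SS_eq hK1]
      exact hs
    · rintro ⟨a, ha⟩
      rw [← SS_eq hK1] at ha
      exact sound H ha
  rw [hiff2] at hiff
  exact iff_not_self hiff

/-- **Answer to Q1 (disproof).**  Unique choice on Baire space is not Weihrauch reducible to `f₀ ∘ g₀`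
for any problems `f₀, g₀` reducible to the listing problem on Cantor space.  Hence it is not
reducible to the compositional product `List ⋆ List`, and `List ⋆ List ≢ UC`. -/
theorem result :
    (∀ f₀ g₀ : Problem, WRed f₀ ListC → WRed g₀ ListC → ¬ WRed UC (comp f₀ g₀)) ∧
    ∀ h : Problem, IsStar ListC ListC h → ¬ WRed UC h ∧ ¬ WEquiv h UC := by
  refine ⟨main, fun h hh => ?_⟩
  have key : ¬ WRed UC h := by
    intro hU
    obtain ⟨⟨f₀, g₀, hf, hg, heq⟩, -⟩ := hh
    exact main f₀ g₀ hf hg (hU.trans heq.1)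
  exact ⟨key, fun h2 => key h2.2⟩

end Pool.Agent.Results.MP_b67dab_lc.ListListBelowUC
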